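import Pool.Agent.Q51.OP.Pos

/-!
# The almost sure statement for independence of order four
-/

namespace Pool.Agent.Q51.OP

open Finset MeasureTheory Filter Pool.Agent.Q51.LI Topology

variable {Ω : Type} [MeasurableSpace Ω] {P : Measure Ω} {E : ℕ → Set Ω}

lemma log_small (κ : ℝ) (hκ : 0 < κ) : ∀ᶠ n : ℕ in atTop,
    Real.log ((n ^ 2 + n : ℕ) : ℝ) ≤ κ * (n : ℝ) ^ (1 / 4 : ℝ) := by
  have h1 := (isLittleO_log_rpow_atTop (show (0 : ℝ) < 1 / 4 by norm_num)).bound (show (0 : ℝ) < κ / 3 by positivity)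
  have h2 := tendsto_natCast_atTop_atTop.eventually h1
  filter_upwards [h2, eventually_ge_atTop 2] with n hn hn2
  have hn1 : (1 : ℝ) ≤ n := by exact_mod_cast (by omega : 1 ≤ n)
  rw [Real.norm_of_nonneg (Real.log_nonneg hn1), Real.norm_of_nonneg (by positivity)] at hn
  have h3 : Real.log ((n ^ 2 + n : ℕ) : ℝ) ≤ 3 * Real.log n := by
    have e : 3 * Real.log n = Real.log ((n : ℝ) ^ 3) := by rw [Real.log_pow]; norm_num
    rw [e]
    refine Real.log_le_log (by positivity) ?_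
    have : n ^ 2 + n ≤ n ^ 3 := by nlinarith [mul_self_nonneg n]
    exact_mod_cast this
  linarith

/-- Almost surely, for all large `n`, no two blocks of one of the two intervals are poor. -/
theorem ae_notpoor [IsProbabilityMeasure P] (hE : ∀ X, IsRandomSet P 4 X E) (M : ℕ) (hM : 2 ≤ M) (ε : ℝ) (hε : 0 < ε)
    (hε1 : ε ≤ 1) : ∀ᵐ ω ∂P, ∀ᶠ n : ℕ in atTop, ∀ c ∈ ({n ^ 2 - n, n ^ 2} : Finset ℕ), ∀ i j, i < j → j < M →
      ω ∉ Poor E ε (blk c (n / M) i) ∩ Poor E ε (blk c (n / M) j) := by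
  classical
  set K : ℕ → Finset (ℕ × (ℕ × ℕ)) := fun n =>
    ({n ^ 2 - n, n ^ 2} : Finset ℕ) ×ˢ ((range M ×ˢ range M).filter (fun p => p.1 < p.2)) with hK
  set s : ℕ → Set Ω := fun n => ⋃ z ∈ K n, Poor E ε (blk z.1 (n / M) z.2.1) ∩ Poor E ε (blk z.1 (n / M) z.2.2) with hs
  have hM0 : (0 : ℝ) < M := by exact_mod_cast (by omega : 0 < M)
  have hκ : (0 : ℝ) < ε ^ 2 / (3 * M ^ 2) := by positivity
  obtain ⟨n₀, hn₀⟩ := eventually_atTop.1 (log_small _ hκ)
  have hsum : Summable fun n : ℕ => (n : ℝ) ^ (-(3 / 2) : ℝ) := Real.summable_nat_rpow.2 (by norm_num)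
  have hbound : ∀ n : ℕ, max n₀ (2 * M) ≤ n → P.real (s n) ≤ (n : ℝ) ^ (-(3 / 2) : ℝ) := by
    intro n hn
    have hn1 : n₀ ≤ n := (le_max_left _ _).trans hn
    have hn2 : 2 * M ≤ n := (le_max_right _ _).trans hn
    have hlog := hn₀ n hn1
    have hn0 : (0 : ℝ) < n := by exact_mod_cast (by omega : 0 < n)
    set B := n / M with hB
    have hMB : M * B ≤ n := Nat.mul_div_le n M
    have hBlow : (n : ℝ) / (2 * M) ≤ B := by
      have h1 : (n : ℝ) < ((B : ℝ) + 1) * M := by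
        have : n < (B + 1) * M := by
          have := Nat.lt_div_mul_add (a := n) (b := M) (by omega)
          rw [← hB] at this
          have e : (B + 1) * M = B * M + M := by ring
          omega
        exact_mod_cast this
      have h2 : 2 * (M : ℝ) ≤ n := by exact_mod_cast hn2
      rw [div_le_iff₀ (by positivity)]
      nlinarith
    set Λ := Real.log ((n ^ 2 + n : ℕ) : ℝ) with hΛ
    have hnn : 20 ≤ n ^ 2 + n := by nlinarith
    have hΛ0 : 0 < Λ := Real.log_pos (by exact_mod_cast (by omega : 1 < n ^ 2 + n))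
    have hB0 : (0 : ℝ) < B := lt_of_lt_of_le (by positivity) hBlow
    set m := (B : ℝ) / Λ with hm
    have hm0 : 0 < m := by positivity
    have hsubs : ∀ c ∈ ({n ^ 2 - n, n ^ 2} : Finset ℕ), ∀ i < M, blk c B i ⊆ Icc 3 (n ^ 2 + n) := by
      intro c hc i hi x hx
      unfold blk at hx
      rw [mem_Ioc] at hx
      rw [mem_Icc]
      have h1 : (i + 1) * B ≤ M * B := Nat.mul_le_mul_right _ hi
      have h2 : c ≤ n ^ 2 ∧ 2 ≤ c := by
        have h3 : n + 2 ≤ n ^ 2 := by nlinarith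
        rw [mem_insert, mem_singleton] at hc
        rcases hc with h | h <;> subst h <;> omega
      have h0 : 0 ≤ i * B := Nat.zero_le _
      omega
    have hmean : ∀ c ∈ ({n ^ 2 - n, n ^ 2} : Finset ℕ), ∀ i < M, m ≤ ∑ l ∈ blk c B i, pr l := by
      intro c hc i hi
      have h1 : ∑ l ∈ blk c B i, (1 / Λ) ≤ ∑ l ∈ blk c B i, pr l := sum_le_sum fun l hl => pr_ge (hsubs c hc i hi hl)
      refine le_trans (le_of_eq ?_) h1
      rw [sum_const, nsmul_eq_mul, hm, mul_one_div]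
      congr 1
      unfold blk
      rw [Nat.card_Ioc]
      have e : (i + 1) * B = i * B + B := by ring
      have h7 : i * B ≤ (i + 1) * B := Nat.mul_le_mul_right _ (Nat.le_succ i)
      have : c + (i + 1) * B - (c + i * B) = B := by
        rw [Nat.add_sub_add_left, e, Nat.add_sub_cancel_left]
      rw [this]
    have hone : ∀ z ∈ K n, P.real (Poor E ε (blk z.1 (n / M) z.2.1) ∩ Poor E ε (blk z.1 (n / M) z.2.2)) ≤
        1 / (ε ^ 4 * m ^ 2) := by
      rintro ⟨c, i, j⟩ hz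
      simp only [hK, mem_product, mem_filter, mem_range] at hz
      obtain ⟨hc, ⟨hi, hj⟩, hij⟩ := hz
      exact pair_bad (hE (n ^ 2 + n)) (hsubs c hc i hi) (hsubs c hc j hj) (blk_disjoint c B i j hij) hε hm0
        (hmean c hc i hi) (hmean c hc j hj)
    have hcard : ((K n).card : ℝ) ≤ 2 * M ^ 2 := by
      have h1 : (K n).card ≤ 2 * (M * M) := by
        simp only [hK]
        rw [card_product]
        refine Nat.mul_le_mul (card_le_two) ?_
        refine (card_filter_le _ _).trans ?_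
        rw [card_product, card_range]
      have h2 : ((K n).card : ℝ) ≤ ((2 * (M * M) : ℕ) : ℝ) := by exact_mod_cast h1
      push_cast at h2
      nlinarith
    have h1 : P.real (s n) ≤ 2 * M ^ 2 * (1 / (ε ^ 4 * m ^ 2)) := by
      refine (measureReal_biUnion_finset_le _ _).trans ((sum_le_sum hone).trans ?_)
      rw [sum_const, nsmul_eq_mul]
      exact mul_le_mul_of_nonneg_right hcard (by positivity)
    refine h1.trans ?_
    -- size of `m`
    set y := (n : ℝ) ^ (1 / 4 : ℝ) with hy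
    have hy0 : 0 < y := Real.rpow_pos_of_pos hn0 _
    have hy4 : y ^ 4 = n := by
      rw [hy, ← Real.rpow_natCast, ← Real.rpow_mul hn0.le]
      norm_num
    have hy6 : (n : ℝ) ^ (-(3 / 2) : ℝ) = 1 / y ^ 6 := by
      rw [hy, ← Real.rpow_natCast, ← Real.rpow_mul hn0.le, Real.rpow_neg hn0.le, one_div]
      norm_num
    rw [hy6]
    have hmlow : 3 * M * y ^ 3 / (2 * ε ^ 2) ≤ m := by
      rw [hm, le_div_iff₀ hΛ0]
      refine le_trans ?_ hBlow
      calc 3 * M * y ^ 3 / (2 * ε ^ 2) * Λ ≤ 3 * M * y ^ 3 / (2 * ε ^ 2) * (ε ^ 2 / (3 * M ^ 2) * y) :=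
            mul_le_mul_of_nonneg_left hlog (by positivity)
        _ = y ^ 4 / (2 * M) := by field_simp
        _ = n / (2 * M) := by rw [hy4]
    have hm2 : (3 * M * y ^ 3 / (2 * ε ^ 2)) ^ 2 ≤ m ^ 2 := pow_le_pow_left₀ (by positivity) hmlow 2
    rw [mul_one_div, div_le_div_iff₀ (by positivity) (by positivity)]
    have e1 : ε ^ 4 * (3 * M * y ^ 3 / (2 * ε ^ 2)) ^ 2 = 9 / 4 * M ^ 2 * y ^ 6 := by
      field_simp
      ring
    have h2 : ε ^ 4 * (3 * M * y ^ 3 / (2 * ε ^ 2)) ^ 2 ≤ ε ^ 4 * m ^ 2 := mul_le_mul_of_nonneg_left hm2 (by positivity)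
    rw [e1] at h2
    have h3 : 0 ≤ (M : ℝ) ^ 2 * y ^ 6 := by positivity
    nlinarith
  have hae := ae_eventually s _ hsum _ hbound
  filter_upwards [hae] with ω hω
  filter_upwards [hω] with n hn c hc i j hij hj hbad
  apply hn
  simp only [hs, Set.mem_iUnion]
  refine ⟨(c, i, j), ?_, hbad⟩
  simp only [hK, mem_product, mem_filter, mem_range]
  exact ⟨hc, ⟨by omega, hj⟩, hij⟩

end Pool.Agent.Q51.OP
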