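import Pool.Agent.Q51.OP.AsP

/-!
# Asymptotic lower bound for the number of elements in the Oppermann intervals
-/

namespace Pool.Agent.Q51.OP

open Finset MeasureTheory Filter Pool.Agent.Q51.LI Topology

variable {Ω : Type} [MeasurableSpace Ω] {P : Measure Ω} {E : ℕ → Set Ω}

lemma final_ineq (δ : ℝ) (hδ : 0 < δ) (hδ1 : δ ≤ 1) (M : ℕ) (hM : 8 / δ ≤ M) : ∀ᶠ n : ℕ in atTop,
    (1 - δ) * (n / (2 * Real.log n)) ≤
      ((M : ℝ) - 1) * ((1 - δ / 4) * (((n / M : ℕ) : ℝ) / Real.log ((n ^ 2 + n : ℕ) : ℝ))) := by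
  have hM8 : (8 : ℝ) ≤ M := by
    refine le_trans ?_ hM
    rw [le_div_iff₀ hδ]
    linarith
  have hM8' : 8 ≤ M := by exact_mod_cast hM8
  have h1 : Tendsto (fun X : ℕ => Real.log X) atTop atTop := Real.tendsto_log_atTop.comp tendsto_natCast_atTop_atTop
  filter_upwards [h1.eventually_ge_atTop (2 / δ), eventually_ge_atTop (M * M)] with n hn hnM
  have hn1 : 1 ≤ n := by nlinarith
  have hn0 : (0 : ℝ) < n := by exact_mod_cast hn1
  set L := Real.log n with hL
  set Λ := Real.log ((n ^ 2 + n : ℕ) : ℝ) with hΛ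
  set B := n / M with hB
  have hL0 : 0 < L := lt_of_lt_of_le (by positivity) hn
  have hδL : 2 ≤ δ * L := by
    rw [div_le_iff₀ hδ] at hn
    linarith
  have hΛ1 : Λ ≤ (1 + δ / 4) * (2 * L) := by
    have h2 : Λ ≤ Real.log (2 * (n : ℝ) ^ 2) := by
      refine Real.log_le_log (by positivity) ?_
      push_cast
      have : (1 : ℝ) ≤ n := by exact_mod_cast hn1
      nlinarith
    rw [Real.log_mul (by norm_num) (by positivity), Real.log_pow] at h2
    have := Real.log_two_lt_d9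
    push_cast at h2
    nlinarith
  have hΛ0 : 0 < Λ := Real.log_pos (by
    have : 1 < n ^ 2 + n := by nlinarith
    exact_mod_cast this)
  have hBlow : (n : ℝ) / M - 1 ≤ B := by
    have h3 : (n : ℝ) < ((B : ℝ) + 1) * M := by
      have : n < (B + 1) * M := by
        have := Nat.lt_div_mul_add (a := n) (b := M) (by omega)
        rw [← hB] at this
        have e : (B + 1) * M = B * M + M := by ring
        omega
      exact_mod_cast this
    rw [sub_le_iff_le_add, div_le_iff₀ (by linarith)]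
    exact h3.le
  have hMn : (M : ℝ) * M ≤ n := by exact_mod_cast hnM
  have hMB : (1 - δ / 4) * n ≤ ((M : ℝ) - 1) * B := by
    have h4 : ((M : ℝ) - 1) * ((n : ℝ) / M - 1) ≤ ((M : ℝ) - 1) * B := mul_le_mul_of_nonneg_left hBlow (by linarith)
    refine le_trans ?_ h4
    have e : ((M : ℝ) - 1) * ((n : ℝ) / M - 1) = n - n / M - M + 1 := by
      field_simp
      ring
    rw [e]
    have h5 : (n : ℝ) / M ≤ δ / 8 * n := by
      rw [div_le_iff₀ (by linarith)]
      rw [div_le_iff₀ hδ] at hM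
      nlinarith
    have h6 : (M : ℝ) ≤ n / M := by
      rw [le_div_iff₀ (by linarith)]
      exact hMn
    linarith
  have e2 : ((M : ℝ) - 1) * ((1 - δ / 4) * ((B : ℝ) / Λ)) = (1 - δ / 4) * ((((M : ℝ) - 1) * B) / Λ) := by ring
  rw [e2]
  have h7 : ((1 - δ / 4) * n) / ((1 + δ / 4) * (2 * L)) ≤ (((M : ℝ) - 1) * B) / Λ := by
    refine div_le_div₀ ?_ hMB hΛ0 hΛ1
    exact le_trans (by nlinarith) hMB
  have h8 : (1 - δ / 4) * (((1 - δ / 4) * n) / ((1 + δ / 4) * (2 * L))) ≤ (1 - δ / 4) * ((((M : ℝ) - 1) * B) / Λ) :=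
    mul_le_mul_of_nonneg_left h7 (by linarith)
  refine le_trans ?_ h8
  have e3 : (1 - δ / 4) * (((1 - δ / 4) * n) / ((1 + δ / 4) * (2 * L))) =
      ((1 - δ / 4) ^ 2 / (1 + δ / 4)) * (n / (2 * L)) := by
    field_simp
  rw [e3]
  refine mul_le_mul_of_nonneg_right ?_ (by positivity)
  rw [le_div_iff₀ (by linarith)]
  nlinarith

lemma sum_le_ncard (E : ℕ → Set Ω) (ω : Ω) (lo hi : ℕ) (S : Finset ℕ) (hS : S ⊆ Icc lo hi) :
    ∑ n ∈ S, ind E ω n ≤ ({m : ℕ | lo ≤ m ∧ m ≤ hi ∧ ω ∈ E m}.ncard : ℝ) := by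
  classical
  have h1 : {m : ℕ | lo ≤ m ∧ m ≤ hi ∧ ω ∈ E m} = (((Icc lo hi).filter fun m => ω ∈ E m : Finset ℕ) : Set ℕ) := by
    ext m
    simp [and_assoc]
  rw [h1, Set.ncard_coe_finset]
  refine (sum_le_sum_of_subset_of_nonneg hS fun n _ _ => (ind_mem E ω n).1).trans ?_
  rw [← sum_filter_add_sum_filter_not (Icc lo hi) (fun m => ω ∈ E m)]
  have h2 : ∑ n ∈ (Icc lo hi).filter (fun m => ω ∈ E m), ind E ω n = ((Icc lo hi).filter fun m => ω ∈ E m).card := by
    rw [sum_congr rfl (g := fun _ => (1 : ℝ)), sum_const, nsmul_eq_mul, mul_one]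
    intro n hn
    unfold ind
    exact Set.indicator_of_mem (mem_filter.1 hn).2 _
  have h3 : ∑ n ∈ (Icc lo hi).filter (fun m => ¬ ω ∈ E m), ind E ω n = 0 := by
    refine sum_eq_zero fun n hn => ?_
    unfold ind
    exact Set.indicator_of_notMem (mem_filter.1 hn).2 _
  rw [h2, h3, add_zero]

/-- **Order four suffices**: the lower bound of the expected order, with the constant. -/
theorem ae_lower [IsProbabilityMeasure P] (hE : ∀ X, IsRandomSet P 4 X E) : ∀ᵐ ω ∂P, ∀ δ : ℝ, 0 < δ → ∀ᶠ n : ℕ in atTop,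
    (1 - δ) * (n / (2 * Real.log n)) ≤ ({m : ℕ | n ^ 2 - n ≤ m ∧ m ≤ n ^ 2 ∧ ω ∈ E m}.ncard : ℝ) ∧
    (1 - δ) * (n / (2 * Real.log n)) ≤ ({m : ℕ | n ^ 2 ≤ m ∧ m ≤ n ^ 2 + n ∧ ω ∈ E m}.ncard : ℝ) := by
  have hone : ∀ j : ℕ, ∀ᵐ ω ∂P, ∀ᶠ n : ℕ in atTop,
      (1 - 1 / ((j : ℝ) + 1)) * (n / (2 * Real.log n)) ≤ ({m : ℕ | n ^ 2 - n ≤ m ∧ m ≤ n ^ 2 ∧ ω ∈ E m}.ncard : ℝ) ∧
      (1 - 1 / ((j : ℝ) + 1)) * (n / (2 * Real.log n)) ≤ ({m : ℕ | n ^ 2 ≤ m ∧ m ≤ n ^ 2 + n ∧ ω ∈ E m}.ncard : ℝ) := by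
    intro j
    have hδ : (0 : ℝ) < 1 / ((j : ℝ) + 1) := by positivity
    have hδ1 : 1 / ((j : ℝ) + 1) ≤ 1 := by
      rw [div_le_one (by positivity)]
      have : (0 : ℝ) ≤ j := Nat.cast_nonneg _
      linarith
    obtain ⟨M, hM⟩ := exists_nat_ge (8 / (1 / ((j : ℝ) + 1)))
    have hM8 : (8 : ℝ) ≤ M := by
      refine le_trans ?_ hM
      rw [le_div_iff₀ hδ]
      linarith
    have hM8' : 8 ≤ M := by exact_mod_cast hM8
    filter_upwards [ae_notpoor hE M (by omega) (1 / ((j : ℝ) + 1) / 4) (by positivity) (by linarith)] with ω hω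
    filter_upwards [hω, final_ineq _ hδ hδ1 M hM, eventually_ge_atTop (2 * M)] with n hn hfin hn2
    have hMB : M * (n / M) ≤ n := Nat.mul_div_le n M
    have hnn : 20 ≤ n ^ 2 + n := by nlinarith
    have hΛ0 : 0 < Real.log ((n ^ 2 + n : ℕ) : ℝ) := Real.log_pos (by exact_mod_cast (by omega : 1 < n ^ 2 + n))
    have hnsq : n + 2 ≤ n ^ 2 := by nlinarith
    have hmany : ∀ c ∈ ({n ^ 2 - n, n ^ 2} : Finset ℕ), (1 - 1 / ((j : ℝ) + 1)) * (n / (2 * Real.log n)) ≤
        ∑ l ∈ Ioc c (c + M * (n / M)), ind E ω l := by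
      intro c hc
      refine hfin.trans (many E c (n / M) M _ _ (by omega) (by positivity) (by linarith) (by positivity) ?_ ω
        (fun i j hij hj => hn c hc i j hij hj))
      intro i hi
      have hsub : blk c (n / M) i ⊆ Icc 3 (n ^ 2 + n) := by
        intro x hx
        unfold blk at hx
        rw [mem_Ioc] at hx
        rw [mem_Icc]
        have h1 : (i + 1) * (n / M) ≤ M * (n / M) := Nat.mul_le_mul_right _ hi
        have h2 : c ≤ n ^ 2 ∧ 2 ≤ c := by
          rw [mem_insert, mem_singleton] at hc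
          rcases hc with h | h <;> subst h <;> omega
        have h0 : 0 ≤ i * (n / M) := Nat.zero_le _
        omega
      have h1 : ∑ l ∈ blk c (n / M) i, (1 / Real.log ((n ^ 2 + n : ℕ) : ℝ)) ≤ ∑ l ∈ blk c (n / M) i, pr l :=
        sum_le_sum fun l hl => pr_ge (hsub hl)
      refine le_trans (le_of_eq ?_) h1
      rw [sum_const, nsmul_eq_mul, mul_one_div]
      congr 1
      unfold blk
      rw [Nat.card_Ioc]
      have e : (i + 1) * (n / M) = i * (n / M) + n / M := by ring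
      have : c + (i + 1) * (n / M) - (c + i * (n / M)) = n / M := by
        rw [Nat.add_sub_add_left, e, Nat.add_sub_cancel_left]
      rw [this]
    constructor
    · refine (hmany (n ^ 2 - n) (by simp)).trans (sum_le_ncard E ω _ _ _ ?_)
      intro x hx
      rw [mem_Ioc] at hx
      rw [mem_Icc]
      omega
    · refine (hmany (n ^ 2) (by simp)).trans (sum_le_ncard E ω _ _ _ ?_)
      intro x hx
      rw [mem_Ioc] at hx
      rw [mem_Icc]
      omega
  filter_upwards [ae_all_iff.2 hone] with ω hω δ hδ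
  obtain ⟨j, hj⟩ := exists_nat_ge (1 / δ)
  have h2 : 1 / ((j : ℝ) + 1) ≤ δ := by
    rw [div_le_iff₀ (by positivity)]
    rw [div_le_iff₀ hδ] at hj
    nlinarith
  filter_upwards [hω j, eventually_ge_atTop 2] with n hn hn2
  have hlog : 0 < Real.log n := Real.log_pos (by exact_mod_cast hn2)
  have h3 : (1 - δ) * ((n : ℝ) / (2 * Real.log n)) ≤ (1 - 1 / ((j : ℝ) + 1)) * (n / (2 * Real.log n)) :=
    mul_le_mul_of_nonneg_right (by linarith) (by positivity)
  exact ⟨h3.trans hn.1, h3.trans hn.2⟩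

/-- Hence at least `k` elements in both intervals. -/
theorem ae_k [IsProbabilityMeasure P] (hE : ∀ X, IsRandomSet P 4 X E) : ∀ᵐ ω ∂P, ∀ k : ℕ, ∀ᶠ n : ℕ in atTop,
    k ≤ {m : ℕ | n ^ 2 - n ≤ m ∧ m ≤ n ^ 2 ∧ ω ∈ E m}.ncard ∧ k ≤ {m : ℕ | n ^ 2 ≤ m ∧ m ≤ n ^ 2 + n ∧ ω ∈ E m}.ncard := by
  filter_upwards [ae_lower hE] with ω hω k
  have h1 : ∀ᶠ n : ℕ in atTop, (k : ℝ) ≤ (1 - 1 / 2) * (n / (2 * Real.log n)) := by
    have h2 := Real.isLittleO_log_id_atTop.bound (show (0 : ℝ) < 1 / (4 * (k + 1)) by positivity)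
    have h3 := tendsto_natCast_atTop_atTop.eventually h2
    filter_upwards [h3, eventually_ge_atTop 2] with n hn hn2
    have hlog : 0 < Real.log n := Real.log_pos (by exact_mod_cast hn2)
    rw [Real.norm_of_nonneg hlog.le, id, Real.norm_of_nonneg (by positivity), div_mul_eq_mul_div, one_mul,
      le_div_iff₀ (by positivity)] at hn
    have e : (1 - 1 / 2 : ℝ) * (n / (2 * Real.log n)) = n / (4 * Real.log n) := by
      field_simp
      ring
    rw [e, le_div_iff₀ (by positivity)]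
    nlinarith
  filter_upwards [hω (1 / 2) (by norm_num), h1] with n hn hk
  exact ⟨by exact_mod_cast hk.trans hn.1, by exact_mod_cast hk.trans hn.2⟩

end Pool.Agent.Q51.OP
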