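import Pool.Agent.Q51.LI.Counter

/-!
# A random set with pairwise independence which misses infinitely many intervals between consecutive squares
-/

namespace Pool.Agent.Q51.OP

open Finset MeasureTheory Filter Pool.Agent.Q51.LI Topology

lemma exists_q (s : ℕ) : ∃ p : ℕ, p.Prime ∧ 2 * s + 1 < p ∧ p ≤ 4 * s + 2 := by
  obtain ⟨p, h1, h2, h3⟩ := Nat.exists_prime_lt_and_le_two_mul (2 * s + 1) (by omega)
  exact ⟨p, h1, h2, by omega⟩

/-- a prime larger than the length of the interval `[s², (s + 1)²)` -/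
noncomputable def qq (s : ℕ) : ℕ := (exists_q s).choose

lemma qq_spec (s : ℕ) : (qq s).Prime ∧ 2 * s + 1 < qq s ∧ qq s ≤ 4 * s + 2 := (exists_q s).choose_spec

instance (s : ℕ) : Fact (qq s).Prime := ⟨(qq_spec s).1⟩

lemma pos_ne (n m : ℕ) (hne : n ≠ m) (hb : Nat.sqrt n = Nat.sqrt m) :
    ((n - Nat.sqrt n * Nat.sqrt n : ℕ) : ZMod (qq (Nat.sqrt n))) ≠ ((m - Nat.sqrt m * Nat.sqrt m : ℕ) : ZMod (qq (Nat.sqrt n))) := by
  intro h
  have h1 : Nat.sqrt n * Nat.sqrt n ≤ n := Nat.sqrt_le n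
  have h2 : n ≤ Nat.sqrt n * Nat.sqrt n + Nat.sqrt n + Nat.sqrt n := Nat.sqrt_le_add n
  have h3 : Nat.sqrt m * Nat.sqrt m ≤ m := Nat.sqrt_le m
  have h4 : m ≤ Nat.sqrt m * Nat.sqrt m + Nat.sqrt m + Nat.sqrt m := Nat.sqrt_le_add m
  have h5 := (qq_spec (Nat.sqrt n)).2.1
  have h6 := congrArg ZMod.val h
  rw [ZMod.val_cast_of_lt (by omega), ZMod.val_cast_of_lt (by rw [← hb] at h3 h4 ⊢; omega)] at h6
  rw [← hb] at h3 h6
  omega

/-- **Pairwise independence does not suffice.** -/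
theorem pairwise_fails : ∃ (Ω : Type) (_ : MeasurableSpace Ω) (P : Measure Ω) (E : ℕ → Set Ω), IsProbabilityMeasure P ∧
    (∀ X, IsRandomSet P 2 X E) ∧
    ∀ᵐ ω ∂P, ∀ N : ℕ, ∃ s : ℕ, N ≤ s ∧ ∀ n : ℕ, s ^ 2 ≤ n → n < (s + 1) ^ 2 → ω ∉ E n := by
  classical
  set pos : ℕ → ℕ := fun n => n - Nat.sqrt n * Nat.sqrt n with hpos
  refine ⟨Om 2 qq, inferInstance, Pm 2 qq Nat.sqrt, Ev 2 qq Nat.sqrt pos, inferInstance, ?_, ?_⟩
  · intro X
    refine isRandomSet_model (by norm_num) ?_ X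
    intro n m _ _ hne hb
    exact pos_ne n m hne hb
  · have key : ∀ a : ℕ, ∀ᵐ ω ∂(Pm 2 qq Nat.sqrt), ¬ ∀ j : ℕ, a ≤ j → ω.1 j ∉ sil 2 (qq j) := by
      intro a
      rw [ae_iff]
      simp only [not_not]
      have hle : ∀ b : ℕ, (Pm 2 qq Nat.sqrt).real {ω : Om 2 qq | ∀ j : ℕ, a ≤ j → ω.1 j ∉ sil 2 (qq j)} ≤
          Real.exp (-((1 / 18 : ℝ) * ∑ j ∈ Ico (a + 1) b, 1 / (j : ℝ))) := by
        intro b
        have h1 : (Pm 2 qq Nat.sqrt).real {ω : Om 2 qq | ∀ j : ℕ, a ≤ j → ω.1 j ∉ sil 2 (qq j)} ≤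
            (Pm 2 qq Nat.sqrt).real {ω : Om 2 qq | ∀ j ∈ Ico (a + 1) b, ω.1 j ∉ sil 2 (qq j)} := by
          refine measureReal_mono ?_ (measure_ne_top _ _)
          intro ω hω j hj
          exact hω j (by have := (mem_Ico.1 hj).1; omega)
        refine h1.trans ((no_silent (k := 2) (q := qq) (blk := Nat.sqrt) (by norm_num) (Ico (a + 1) b)).trans ?_)
        rw [Real.exp_le_exp, neg_le_neg_iff, mul_sum]
        refine sum_le_sum fun j hj => ?_
        have hj1 : 1 ≤ j := by have := (mem_Ico.1 hj).1; omega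
        have hj0 : (1 : ℝ) ≤ j := by exact_mod_cast hj1
        obtain ⟨-, g2, g3⟩ := qq_spec j
        have g4 : qq j ≤ 3 * (qq j / 2) := by omega
        have g4' : (qq j : ℝ) ≤ 3 * ((qq j / 2 : ℕ) : ℝ) := by exact_mod_cast g4
        have g3' : (qq j : ℝ) ≤ 6 * j := by
          have : qq j ≤ 6 * j := by omega
          exact_mod_cast this
        have g0 : (0 : ℝ) < qq j := by
          have : 0 < qq j := by omega
          exact_mod_cast this
        rw [← mul_div_assoc, mul_one, div_le_div_iff₀ (by linarith) (by positivity)]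
        nlinarith
      have hdiv : Tendsto (fun b : ℕ => ∑ j ∈ Ico (a + 1) b, 1 / (j : ℝ)) atTop atTop := by
        have h2 : Tendsto (fun b : ℕ => ∑ j ∈ range b, 1 / (j : ℝ)) atTop atTop := by
          have h3 : ¬ Summable (fun j : ℕ => 1 / (j : ℝ)) := Real.not_summable_one_div_natCast
          exact (not_summable_iff_tendsto_nat_atTop_of_nonneg (fun j => by positivity)).1 h3
        have h4 : Tendsto (fun b : ℕ => ∑ j ∈ range b, 1 / (j : ℝ) - ∑ j ∈ range (a + 1), 1 / (j : ℝ)) atTop atTop :=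
          tendsto_atTop_add_const_right _ _ h2
        refine h4.congr' ?_
        filter_upwards [eventually_ge_atTop (a + 1)] with b hb
        rw [sum_Ico_eq_sub _ hb]
      have hzero : (Pm 2 qq Nat.sqrt).real {ω : Om 2 qq | ∀ j : ℕ, a ≤ j → ω.1 j ∉ sil 2 (qq j)} ≤ 0 := by
        have h5 : Tendsto (fun b : ℕ => Real.exp (-((1 / 18 : ℝ) * ∑ j ∈ Ico (a + 1) b, 1 / (j : ℝ)))) atTop (𝓝 0) :=
          Real.tendsto_exp_neg_atTop_nhds_zero.comp (hdiv.const_mul_atTop (by norm_num))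
        exact ge_of_tendsto' h5 hle
      have h6 : (Pm 2 qq Nat.sqrt).real {ω : Om 2 qq | ∀ j : ℕ, a ≤ j → ω.1 j ∉ sil 2 (qq j)} = 0 :=
        le_antisymm hzero measureReal_nonneg
      rwa [measureReal_eq_zero_iff] at h6
    filter_upwards [ae_all_iff.2 key] with ω hω N
    have h1 := hω (max N 3)
    push Not at h1
    obtain ⟨s, hs, hsil⟩ := h1
    refine ⟨s, (le_max_left _ _).trans hs, fun n hn1 hn2 => ?_⟩
    have hs3 : 3 ≤ s := (le_max_right _ _).trans hs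
    have e : Nat.sqrt n = s := by
      have := Nat.eq_sqrt (n := s) (a := s)
      refine le_antisymm ?_ ?_
      · have : Nat.sqrt n < s + 1 := Nat.sqrt_lt.2 (by rw [← sq]; exact hn2)
        omega
      · exact Nat.le_sqrt.2 (by rw [← sq]; exact hn1)
    refine silent_void (by norm_num) (by nlinarith) ?_
    rw [e]
    exact hsil

end Pool.Agent.Q51.OP
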