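import Pool.Agent.Q51.LI.MomentAs

/-!
# Independence of order four gives many elements in all Oppermann intervals
-/

namespace Pool.Agent.Q51.OP

open Finset MeasureTheory Filter Pool.Agent.Q51.LI Topology

variable {Ω : Type} [MeasurableSpace Ω] {P : Measure Ω} {k X : ℕ} {E : ℕ → Set Ω}

lemma dev_measurable (hE : IsRandomSet P k X E) {S : Finset ℕ} (hS : S ⊆ Icc 3 X) : Measurable (dev E S) := by
  unfold dev
  exact Finset.measurable_sum S fun n hn => (measurable_ind hE (hS hn)).sub measurable_const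

/-- `S` contains few elements of the random set -/
def Poor (E : ℕ → Set Ω) (ε : ℝ) (S : Finset ℕ) : Set Ω := {ω | dev E S ω ≤ -(ε * ∑ n ∈ S, pr n)}

/-- Two disjoint sets are rarely both poor. -/
lemma pair_bad [IsProbabilityMeasure P] (hE : IsRandomSet P 4 X E) {S T : Finset ℕ} (hS : S ⊆ Icc 3 X)
    (hT : T ⊆ Icc 3 X) (hd : Disjoint S T) {ε m : ℝ} (hε : 0 < ε) (hm : 0 < m) (hmS : m ≤ ∑ n ∈ S, pr n)
    (hmT : m ≤ ∑ n ∈ T, pr n) : P.real (Poor E ε S ∩ Poor E ε T) ≤ 1 / (ε ^ 4 * m ^ 2) := by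
  classical
  have h0 : Free P E (fun _ => (1 : ℝ)) 1 (2 + 2) (Icc 3 X) := free_one hE
  have h1 := Free.step (j := 2) hE h0 subset_rfl hS
  have hT' : T ⊆ Icc 3 X \ S := fun n hn => Finset.mem_sdiff.2 ⟨hT hn, fun h => disjoint_left.1 hd h hn⟩
  have h2 := Free.step (j := 0) hE h1 sdiff_subset hT'
  have hval := h2.2.2 ∅ (empty_subset _) (by simp)
  have hint := h2.integrable hE (T := ∅) (empty_subset _)
  simp only [prod_empty, mul_one, one_mul] at hval hint
  set a := ∑ n ∈ S, pr n with ha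
  set b := ∑ n ∈ T, pr n with hb
  have ha0 : 0 < a := hm.trans_le hmS
  have hb0 : 0 < b := hm.trans_le hmT
  have hvar : ∀ U : Finset ℕ, U ⊆ Icc 3 X → 0 ≤ ∑ n ∈ U, pr n * (1 - pr n) ∧ ∑ n ∈ U, pr n * (1 - pr n) ≤ ∑ n ∈ U, pr n := by
    intro U hU
    refine ⟨sum_nonneg fun n hn => ?_, sum_le_sum fun n hn => ?_⟩
    · have := pr_mem (mem_Icc.1 (hU hn)).1
      nlinarith [this.1, this.2]
    · have := pr_mem (mem_Icc.1 (hU hn)).1
      nlinarith [this.1, this.2]
  have hmeas : MeasurableSet (Poor E ε S ∩ Poor E ε T) :=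
    (measurableSet_le (dev_measurable hE hS) measurable_const).inter
      (measurableSet_le (dev_measurable hE hT) measurable_const)
  have hlow : P.real (Poor E ε S ∩ Poor E ε T) * ((ε * a) ^ 2 * (ε * b) ^ 2) ≤
      ∫ ω, dev E S ω ^ 2 * dev E T ω ^ 2 ∂P := by
    have e : P.real (Poor E ε S ∩ Poor E ε T) * ((ε * a) ^ 2 * (ε * b) ^ 2) =
        ∫ ω, (Poor E ε S ∩ Poor E ε T).indicator (fun _ => ((ε * a) ^ 2 * (ε * b) ^ 2)) ω ∂P := by
      rw [integral_indicator hmeas, setIntegral_const, smul_eq_mul]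
    rw [e]
    refine integral_mono ((integrable_const _).indicator hmeas) hint ?_
    intro ω
    by_cases hω : ω ∈ Poor E ε S ∩ Poor E ε T
    · rw [Set.indicator_of_mem hω]
      have p1 : dev E S ω ≤ -(ε * a) := hω.1
      have p2 : dev E T ω ≤ -(ε * b) := hω.2
      have q1 : (ε * a) ^ 2 ≤ dev E S ω ^ 2 := by
        have : 0 < ε * a := by positivity
        nlinarith
      have q2 : (ε * b) ^ 2 ≤ dev E T ω ^ 2 := by
        have : 0 < ε * b := by positivity
        nlinarith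
      exact mul_le_mul q1 q2 (sq_nonneg _) (sq_nonneg _)
    · rw [Set.indicator_of_notMem hω]
      positivity
  rw [hval] at hlow
  have h3 : (∑ n ∈ S, pr n * (1 - pr n)) * ∑ n ∈ T, pr n * (1 - pr n) ≤ a * b :=
    mul_le_mul (hvar S hS).2 (hvar T hT).2 (hvar T hT).1 ha0.le
  have h4 : P.real (Poor E ε S ∩ Poor E ε T) * (ε ^ 4 * (a * b)) ≤ 1 := by
    have h5 : P.real (Poor E ε S ∩ Poor E ε T) * (ε ^ 4 * (a * b)) * (a * b) ≤ 1 * (a * b) := by
      calc P.real (Poor E ε S ∩ Poor E ε T) * (ε ^ 4 * (a * b)) * (a * b)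
          = P.real (Poor E ε S ∩ Poor E ε T) * ((ε * a) ^ 2 * (ε * b) ^ 2) := by ring
        _ ≤ 1 * (a * b) := by linarith
    exact le_of_mul_le_mul_right h5 (by positivity)
  have h6 : m ^ 2 ≤ a * b := by nlinarith
  rw [le_div_iff₀ (by positivity)]
  refine le_trans ?_ h4
  refine mul_le_mul_of_nonneg_left ?_ measureReal_nonneg
  exact mul_le_mul_of_nonneg_left h6 (by positivity)

/-- the `i`-th block of length `b` after `c` -/
def blk (c b i : ℕ) : Finset ℕ := Ioc (c + i * b) (c + (i + 1) * b)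

lemma sum_blk (c b M : ℕ) (f : ℕ → ℝ) : ∑ i ∈ range M, ∑ n ∈ blk c b i, f n = ∑ n ∈ Ioc c (c + M * b), f n := by
  induction M with
  | zero => simp
  | succ M ih =>
    rw [sum_range_succ, ih]
    unfold blk
    exact sum_Ioc_consecutive f (by omega) (by nlinarith)

lemma blk_disjoint (c b i j : ℕ) (hij : i < j) : Disjoint (blk c b i) (blk c b j) := by
  rw [disjoint_left]
  intro n hn hn'
  unfold blk at hn hn'
  rw [mem_Ioc] at hn hn'
  have : (i + 1) * b ≤ j * b := Nat.mul_le_mul_right _ hij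
  omega

/-- If no two blocks are poor, there are many elements. -/
lemma many (E : ℕ → Set Ω) (c b M : ℕ) (ε m : ℝ) (hM : 1 ≤ M) (hε : 0 ≤ ε) (hε1 : ε ≤ 1) (hm : 0 ≤ m)
    (hmean : ∀ i < M, m ≤ ∑ n ∈ blk c b i, pr n) (ω : Ω)
    (h : ∀ i j, i < j → j < M → ω ∉ Poor E ε (blk c b i) ∩ Poor E ε (blk c b j)) :
    ((M : ℝ) - 1) * ((1 - ε) * m) ≤ ∑ n ∈ Ioc c (c + M * b), ind E ω n := by
  rw [← sum_blk]
  have hnn : ∀ i, 0 ≤ ∑ n ∈ blk c b i, ind E ω n := fun i => sum_nonneg fun n _ => (ind_mem E ω n).1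
  have hgood : ∀ i < M, ω ∉ Poor E ε (blk c b i) → (1 - ε) * m ≤ ∑ n ∈ blk c b i, ind E ω n := by
    intro i hi hp
    have h1 : -(ε * ∑ n ∈ blk c b i, pr n) < dev E (blk c b i) ω := not_le.1 hp
    have h2 : dev E (blk c b i) ω = ∑ n ∈ blk c b i, ind E ω n - ∑ n ∈ blk c b i, pr n := by
      unfold dev
      rw [sum_sub_distrib]
    have h3 := hmean i hi
    nlinarith
  have hem : 0 ≤ (1 - ε) * m := mul_nonneg (by linarith) hm
  by_cases hex : ∃ i < M, ω ∈ Poor E ε (blk c b i)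
  · obtain ⟨i₀, hi₀, hp₀⟩ := hex
    have hother : ∀ i ∈ (range M).erase i₀, (1 - ε) * m ≤ ∑ n ∈ blk c b i, ind E ω n := by
      intro i hi
      rw [mem_erase, mem_range] at hi
      refine hgood i hi.2 fun hp => ?_
      rcases lt_or_gt_of_ne hi.1 with hlt | hlt
      · exact h i i₀ hlt hi₀ ⟨hp, hp₀⟩
      · exact h i₀ i hlt hi.2 ⟨hp₀, hp⟩
    have h1 := sum_le_sum hother
    rw [sum_const, card_erase_of_mem (mem_range.2 hi₀), card_range, nsmul_eq_mul, Nat.cast_sub hM, Nat.cast_one] at h1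
    refine h1.trans ?_
    exact sum_le_sum_of_subset_of_nonneg (erase_subset _ _) fun i _ _ => hnn i
  · push Not at hex
    have h1 := sum_le_sum (s := range M) fun i hi => hgood i (mem_range.1 hi) (hex i (mem_range.1 hi))
    rw [sum_const, card_range, nsmul_eq_mul] at h1
    nlinarith

end Pool.Agent.Q51.OP
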